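import Pool.Agent.helper30.QP.SpecK

/-!
# QP (MP_ebc808_nt): row ANF
-/

set_option autoImplicit false

open Polynomial Pool.Agent.helper7.IG

noncomputable section

namespace Pool.Agent.QP

/-- Row ANF. -/
theorem ANF : ANF_stmt := by
  classical
  intro l B hl hB
  have : NeZero l := ⟨hl.ne_zero⟩
  have : Fintype (rootsOfUnity l kk) := Fintype.ofFinite _
  set T : Finset Vx := insert (l * B, 1) (Finset.image (fun ζ : rootsOfUnity l kk => ((B / l, ζ.1) : Vx)) Finset.univ) with hT
  have hsub : ∀ u : Vx, Nb l (B, 1) u → u ∈ T := by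
    intro u hu
    rw [hT, Finset.mem_insert, Finset.mem_image]
    rcases hu with ⟨h1, h2⟩ | ⟨h1, h2⟩
    · left
      refine Prod.ext h1 ?_
      rw [h2]
      exact one_pow l
    · right
      refine ⟨⟨u.2, (mem_rootsOfUnity l u.2).2 h2⟩, Finset.mem_univ _, ?_⟩
      refine Prod.ext ?_ rfl
      have h3 : B = l * u.1 := h1
      show B / l = u.1
      rw [h3, Nat.mul_div_cancel_left _ hl.pos]
  have hfin : {u : Vx | Nb l (B, 1) u}.Finite := T.finite_toSet.subset fun u hu => hsub u hu
  have hAN : AN l B = hfin.toFinset := by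
    unfold AN
    rw [dif_pos hfin]
  refine ⟨?_, ?_⟩
  · intro u
    rw [hAN, Set.Finite.mem_toFinset]
    rfl
  · rw [hAN]
    calc hfin.toFinset.card ≤ T.card := by
          refine Finset.card_le_card fun u hu => ?_
          rw [Set.Finite.mem_toFinset] at hu
          exact hsub u hu
      _ ≤ (Finset.image (fun ζ : rootsOfUnity l kk => ((B / l, ζ.1) : Vx)) Finset.univ).card + 1 := Finset.card_insert_le _ _
      _ ≤ l + 1 := by
          refine Nat.add_le_add_right ?_ 1
          refine Finset.card_image_le.trans ?_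
          rw [Finset.card_univ, ← Nat.card_eq_fintype_card]
          exact card_rootsOfUnity kk l

end Pool.Agent.QP
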