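import Pool.Agent.helper30.QP.SpecK
import Pool.Agent.helper99.IG.ME

/-!
# QP (MP_ebc808_nt): row ORA
-/

set_option autoImplicit false

open Polynomial Pool.Agent.helper7.IG

noncomputable section

namespace Pool.Agent.QP

/-- `cl` of the value of a polynomial. -/
theorem ORA_aeval (Φ : Frame) (Q : Polynomial kk) {x : LL} (hx : x ∈ MM) : Φ.cl (aeval x Q) = aeval (Φ.cl x) Q := by
  rw [Polynomial.aeval_eq_sum_range, Polynomial.aeval_eq_sum_range, Frame.cl_sum]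
  · refine Finset.sum_congr rfl fun i _ => ?_
    rw [Algebra.smul_def, Algebra.smul_def, Frame.cl_smul Φ _ (pow_mem hx i), Frame.cl_pow Φ hx]
  · intro i _
    rw [Algebra.smul_def]
    exact mul_mem (C_mem _) (pow_mem hx i)

/-- Neighbours of an odd vertex are odd. -/
theorem ORA_odd {l B : ℕ} (hlo : Odd l) (hB : Odd B) {u : Vx} (hu : Nb l (B, 1) u) : Odd u.1 := by
  rcases hu with ⟨h1, -⟩ | ⟨h1, -⟩
  · rw [h1]
    exact hlo.mul hB
  · have h2 : Odd (l * u.1) := by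
      rw [← h1]
      exact hB
    exact Nat.Odd.of_mul_right h2

/-- Row ORA. -/
theorem ORA (hHP2 : HP2_stmt) (hANF : ANF_stmt) (hPMM : PMM_stmt) (hDI : DI_stmt) (hNB : NB_stmt) (hME : ME_stmt) :
    ORA_stmt := by
  classical
  intro F N l hF hN hsq hl hl2 hl3 hNl
  obtain ⟨B0, hB0, hB0'⟩ := hHP2 F N l hF hN hsq hl hl2 hl3 hNl
  have hlo : Odd l := hl.odd_of_ne_two hl2
  have hFM : PN N F ∈ MM := hPMM N F hN hsq hF.1
  refine ⟨l * B0, hlo.mul hB0, ?_⟩
  intro Q Φ γ B hB hdB hFx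
  have hBne : B ≠ 0 := hB.pos.ne'
  have hlB : l ∣ B := (dvd_mul_right l B0).trans hdB
  obtain ⟨hfix, hnb⟩ := hB0' Φ γ B hB ((dvd_mul_left B0 l).trans hdB) hFx
  obtain ⟨hAN, -⟩ := hANF l B hl hBne
  have hDB : γ (Φ.D (B, 1)) = Φ.D (B, 1) := by
    have h := hFx 1 1 (one_dvd _) (one_pow N)
    rwa [mul_one] at h
  have hodd : ∀ u ∈ AN l B, Odd u.1 := fun u hu => ORA_odd hlo hB ((hAN u).1 hu)
  -- the permutation
  have hex : ∀ u : Vx, ∃ u' : Vx, u ∈ AN l B → (u' ∈ AN l B ∧ γ (Φ.D u) = Φ.D u') := by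
    intro u
    by_cases hu : u ∈ AN l B
    · obtain ⟨u', h1, h2⟩ := hNB Φ γ (B, 1) (B, 1) l hl hl2 hB hB hlB hlB hDB u ((hAN u).1 hu)
      exact ⟨u', fun _ => ⟨(hAN u').2 h1, h2⟩⟩
    · exact ⟨u, fun h => absurd h hu⟩
  choose π hπ using hex
  have hinj : Set.InjOn π (AN l B : Set Vx) := by
    intro u hu u' hu' h
    have h1 := (hπ u hu).2
    have h2 := (hπ u' hu').2
    rw [h, ← h2] at h1
    exact hDI Φ u u' (hodd u hu) (hodd u' hu') (γ.injective h1)
  have himg : (AN l B).image π = AN l B := by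
    refine Finset.eq_of_subset_of_card_le ?_ ?_
    · intro u hu
      obtain ⟨v, hv, rfl⟩ := Finset.mem_image.1 hu
      exact (hπ v hv).1
    · rw [Finset.card_image_of_injOn hinj]
  have hlBmem : ((l * B, 1) : Vx) ∈ AN l B := by
    rw [hAN]
    left
    exact ⟨rfl, (one_pow l).symm⟩
  -- membership
  have hmemD : ∀ u ∈ AN l B, sig u.1 u.2 DDk ∈ MM := fun u hu => hME _ _ _ (hodd u hu) DDk_mem
  have hmemF : ∀ u ∈ AN l B, sig u.1 u.2 (PN N F) ∈ MM := fun u hu => hME _ _ _ (hodd u hu) hFM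
  have hmemB : sig B 1 DDk ∈ MM := hME _ _ _ hB DDk_mem
  have hmemFB : sig B 1 (PN N F) ∈ MM := hME _ _ _ hB hFM
  have hQD : ∀ u ∈ AN l B, γ (Φ.cl (aeval (sig u.1 u.2 DDk) Q)) = Φ.cl (aeval (sig (π u).1 (π u).2 DDk) Q) := by
    intro u hu
    rw [ORA_aeval Φ Q (hmemD u hu), ORA_aeval Φ Q (hmemD (π u) (hπ u hu).1), ← Polynomial.aeval_algHom_apply]
    exact congrArg (fun x => aeval x Q) (hπ u hu).2
  have hPI : PI0 Q l B ∈ MM := by
    unfold PI0
    exact mul_mem (ME_aeval_mem hmemB Q) (prod_mem fun u hu => ME_aeval_mem (hmemD u hu) Q)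
  have hγPI : γ (Φ.cl (PI0 Q l B)) = Φ.cl (PI0 Q l B) := by
    unfold PI0
    rw [Φ.cl_mul _ (ME_aeval_mem hmemB Q) _ (prod_mem fun u hu => ME_aeval_mem (hmemD u hu) Q), map_mul,
      Frame.cl_prod Φ _ _ (fun u hu => ME_aeval_mem (hmemD u hu) Q), map_prod]
    congr 1
    · rw [ORA_aeval Φ Q hmemB, ← Polynomial.aeval_algHom_apply]
      exact congrArg (fun x => aeval x Q) hDB
    · rw [Finset.prod_congr rfl hQD]
      conv_rhs => rw [← himg]
      rw [Finset.prod_image hinj]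
  have hHUmem : ∀ u : Vx, HU l B (PN N F) u ∈ MM := by
    intro u
    unfold HU
    exact add_mem hmemFB (sum_mem fun u' hu' => hmemF u' (Finset.mem_of_mem_erase hu'))
  have hγHU : ∀ u ∈ AN l B, γ (Φ.cl (HU l B (PN N F) u)) = Φ.cl (HU l B (PN N F) (π u)) := by
    intro u hu
    unfold HU
    rw [Φ.cl_add _ hmemFB _ (sum_mem fun u' hu' => hmemF u' (Finset.mem_of_mem_erase hu')),
      Φ.cl_add _ hmemFB _ (sum_mem fun u' hu' => hmemF u' (Finset.mem_of_mem_erase hu')), map_add, hfix,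
      Frame.cl_sum Φ _ _ (fun u' hu' => hmemF u' (Finset.mem_of_mem_erase hu')),
      Frame.cl_sum Φ _ _ (fun u' hu' => hmemF u' (Finset.mem_of_mem_erase hu')), map_sum]
    congr 1
    have h1 : (AN l B).erase (π u) = ((AN l B).erase u).image π := by
      conv_lhs => rw [← himg]
      ext v
      rw [Finset.mem_erase, Finset.mem_image, Finset.mem_image]
      constructor
      · rintro ⟨h2, w, hw, rfl⟩
        exact ⟨w, Finset.mem_erase.2 ⟨fun h => h2 (by rw [h]), hw⟩, rfl⟩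
      · rintro ⟨w, hw, rfl⟩
        obtain ⟨h2, h3⟩ := Finset.mem_erase.1 hw
        exact ⟨fun h => h2 (hinj h3 hu h), w, h3, rfl⟩
    rw [h1, Finset.sum_image fun a ha b hb h => hinj (Finset.mem_of_mem_erase ha) (Finset.mem_of_mem_erase hb) h]
    refine Finset.sum_congr rfl fun w hw => ?_
    have hw' := Finset.mem_of_mem_erase hw
    exact hnb w (π w) ((hAN w).1 hw') ((hAN _).1 (hπ w hw').1) (hπ w hw').2
  refine ⟨π (l * B, 1), (hπ _ hlBmem).1, ?_⟩
  unfold YU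
  rw [Φ.cl_mul _ hPI _ (hHUmem _), Φ.cl_mul _ hPI _ (hHUmem _), map_mul, hγPI, hγHU _ hlBmem]

end Pool.Agent.QP
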